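import Pool.Agent.Helper89.TT.Basic

set_option autoImplicit false

open Finset

namespace Pool.Agent.Helper89.TT

theorem side_k (a b' k u v T : ℕ) (hP : Par a b' k u v) (hb' : 1 ≤ b') (hT : T ∣ k) :
    ∃ (x : ℕ) (r : ℤ), a = T * x ∧ Side x 0 (r ^ 2) 0 ∧ 4 * (b' : ℤ) ^ 2 = r ^ 2 * (T : ℤ) ^ 2 ∧
      r ≠ 0 := by
  obtain ⟨h1, h2, h3, hk, hu, hv⟩ := hP
  obtain ⟨k0, rfl⟩ := hT
  have h2z : 2 * (b' : ℤ) + ((T : ℤ) * k0) * (u : ℤ) ^ 2 = ((T : ℤ) * k0) * (v : ℤ) ^ 2 := by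
    exact_mod_cast h2
  have hk0 : 0 < k0 := Nat.pos_of_mul_pos_left hk
  have hr : 2 * (b' : ℤ) = (T : ℤ) * ((k0 : ℤ) * ((v : ℤ) ^ 2 - (u : ℤ) ^ 2)) := by linarith
  refine ⟨k0 * u * v, (k0 : ℤ) * ((v : ℤ) ^ 2 - (u : ℤ) ^ 2), ?_, ?_, ?_, ?_⟩
  · rw [h1]; ring
  · exact ⟨k0, u, v, rfl, hk0, hu, hv, Or.inl ⟨rfl, rfl, rfl⟩⟩
  · calc 4 * (b' : ℤ) ^ 2 = (2 * (b' : ℤ)) ^ 2 := by ring
      _ = _ := by rw [hr]; ring
  · intro h0
    rw [h0, mul_zero] at hr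
    have : (b' : ℤ) = 0 := by linarith
    have : b' = 0 := by exact_mod_cast this
    omega

theorem side_qr (a b' k u v T : ℕ) (hP : Par a b' k u v) (hT : T ∣ u ∨ T ∣ v) :
    ∃ (x : ℕ) (G H : ℤ), a = T * x ∧ 0 < G ∧ 0 < H ∧ G * H = (x : ℤ) ^ 2 ∧
      Side x (G ^ 2) (-2 * G * H) (H ^ 2) ∧ 4 * (b' : ℤ) ^ 2 = (G * (T : ℤ) ^ 2 - H) ^ 2 := by
  obtain ⟨h1, h2, h3, hk, hu, hv⟩ := hP
  have h2z : 2 * (b' : ℤ) + (k : ℤ) * (u : ℤ) ^ 2 = (k : ℤ) * (v : ℤ) ^ 2 := by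
    exact_mod_cast h2
  have hkz : (0 : ℤ) < k := by exact_mod_cast hk
  rcases hT with hT | hT
  · obtain ⟨u0, rfl⟩ := hT
    have hu0 : 0 < u0 := Nat.pos_of_mul_pos_left hu
    have hu0z : (0 : ℤ) < u0 := by exact_mod_cast hu0
    have hvz : (0 : ℤ) < v := by exact_mod_cast hv
    push_cast at h2z
    refine ⟨k * u0 * v, (k : ℤ) * (u0 : ℤ) ^ 2, (k : ℤ) * (v : ℤ) ^ 2, ?_, by positivity,
      by positivity, ?_, ?_, ?_⟩
    · rw [h1]; ring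
    · push_cast; ring
    · exact ⟨k, u0, v, rfl, hk, hu0, hv, Or.inr (Or.inl ⟨rfl, rfl, rfl⟩)⟩
    · have hr : 2 * (b' : ℤ) = (k : ℤ) * (v : ℤ) ^ 2 - (k : ℤ) * ((T : ℤ) * u0) ^ 2 := by
        linarith
      calc 4 * (b' : ℤ) ^ 2 = (2 * (b' : ℤ)) ^ 2 := by ring
        _ = _ := by rw [hr]; ring
  · obtain ⟨v0, rfl⟩ := hT
    have hv0 : 0 < v0 := Nat.pos_of_mul_pos_left hv
    have hv0z : (0 : ℤ) < v0 := by exact_mod_cast hv0
    have huz : (0 : ℤ) < u := by exact_mod_cast hu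
    push_cast at h2z
    refine ⟨k * u * v0, (k : ℤ) * (v0 : ℤ) ^ 2, (k : ℤ) * (u : ℤ) ^ 2, ?_, by positivity,
      by positivity, ?_, ?_, ?_⟩
    · rw [h1]; ring
    · push_cast; ring
    · exact ⟨k, u, v0, rfl, hk, hu, hv0, Or.inr (Or.inr ⟨rfl, by ring, rfl⟩)⟩
    · have hr : 2 * (b' : ℤ) = (k : ℤ) * ((T : ℤ) * v0) ^ 2 - (k : ℤ) * (u : ℤ) ^ 2 := by
        linarith
      calc 4 * (b' : ℤ) ^ 2 = (2 * (b' : ℤ)) ^ 2 := by ring
        _ = _ := by rw [hr]; ring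

theorem side_sq (T x y : ℕ) (hT : 0 < T) (h : IsSquare ((T * x) ^ 2 + (T * y) ^ 2)) :
    IsSquare (x ^ 2 + y ^ 2) := by
  obtain ⟨r, hr⟩ := h
  have hd : T ^ 2 ∣ r ^ 2 := ⟨x ^ 2 + y ^ 2, by rw [pow_two r, ← hr]; ring⟩
  have hd' : T ∣ r := (Nat.pow_dvd_pow_iff (by norm_num)).1 hd
  obtain ⟨s, rfl⟩ := hd'
  refine ⟨s, ?_⟩
  have hT2 : 0 < T ^ 2 := by positivity
  apply Nat.eq_of_mul_eq_mul_left hT2
  calc T ^ 2 * (x ^ 2 + y ^ 2) = (T * x) ^ 2 + (T * y) ^ 2 := by ring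
    _ = _ := by rw [hr]; ring

theorem st_SIDE : ST_SIDE := by
  intro N M a a' b b' hM hQ hR
  obtain ⟨ha, -, ha', -, hb, -, hb', -, hne, hne', hsq, -, -, -⟩ := hQ
  obtain ⟨k, u, v, k', u', v', T, hP, hP', hMT, hcase⟩ := hR
  have hT : 0 < T := by omega
  have hTz : (0 : ℤ) < T := by exact_mod_cast hT
  rcases hcase with ⟨hk, huv⟩ | ⟨huv, hk⟩ | ⟨hprod, huv, huv'⟩
  · obtain ⟨x, r, hax, hS, hbr, hr0⟩ := side_k a b' k u v T hP hb' hk
    obtain ⟨y, G, H, hby, hG, hH, hGH, hS', har⟩ := side_qr b a' k' u' v' T hP' huv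
    refine ⟨T, x, y, 0, r ^ 2, 0, G ^ 2, -2 * G * H, H ^ 2, hMT, hax, hby, ?_, hS, hS', ?_, ?_,
      ?_, ?_⟩
    · subst hax hby
      exact side_sq T x y hT hsq
    · rw [hbr]; ring
    · rw [har]; ring
    · have : 0 < G ^ 2 := by positivity
      intro h; linarith
    · intro h
      have h1 : r ^ 2 * (r ^ 2 - 4 * (y : ℤ) ^ 2) = 0 := by
        rw [← hGH]
        linarith [h, show (r ^ 2 + -2 * G * H) ^ 2 - 4 * (0 + G ^ 2) * (0 + H ^ 2) =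
          r ^ 2 * (r ^ 2 - 4 * (G * H)) by ring]
      rcases mul_eq_zero.1 h1 with h2 | h2
      · exact hr0 (pow_eq_zero_iff (by norm_num) |>.1 h2)
      · have h3 : (b' : ℤ) ^ 2 = (b : ℤ) ^ 2 := by
          have hbz : (b : ℤ) = T * y := by exact_mod_cast hby
          rw [hbz]
          have h4 : r ^ 2 = 4 * (y : ℤ) ^ 2 := by linarith
          rw [h4] at hbr
          nlinarith [hbr]
        have h4 : (b' : ℤ) = b := by
          have := (sq_eq_sq₀ (by positivity : (0 : ℤ) ≤ b') (by positivity : (0 : ℤ) ≤ b)).1 h3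
          exact this
        have h5 : b' = b := by exact_mod_cast h4
        exact hne' h5.symm
  · obtain ⟨x, G, H, hax, hG, hH, hGH, hS, hbr⟩ := side_qr a b' k u v T hP huv
    obtain ⟨y, r, hby, hS', har, hr0⟩ := side_k b a' k' u' v' T hP' ha' hk
    refine ⟨T, x, y, G ^ 2, -2 * G * H, H ^ 2, 0, r ^ 2, 0, hMT, hax, hby, ?_, hS, hS', ?_, ?_,
      ?_, ?_⟩
    · subst hax hby
      exact side_sq T x y hT hsq
    · rw [hbr]; ring
    · rw [har]; ring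
    · have : 0 < G ^ 2 := by positivity
      intro h; linarith
    · intro h
      have h1 : r ^ 2 * (r ^ 2 - 4 * (x : ℤ) ^ 2) = 0 := by
        rw [← hGH]
        linarith [h, show (-2 * G * H + r ^ 2) ^ 2 - 4 * (G ^ 2 + 0) * (H ^ 2 + 0) =
          r ^ 2 * (r ^ 2 - 4 * (G * H)) by ring]
      rcases mul_eq_zero.1 h1 with h2 | h2
      · exact hr0 (pow_eq_zero_iff (by norm_num) |>.1 h2)
      · have h3 : (a' : ℤ) ^ 2 = (a : ℤ) ^ 2 := by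
          have haz : (a : ℤ) = T * x := by exact_mod_cast hax
          rw [haz]
          have h4 : r ^ 2 = 4 * (x : ℤ) ^ 2 := by linarith
          rw [h4] at har
          nlinarith [har]
        have h4 : (a' : ℤ) = a := by
          have := (sq_eq_sq₀ (by positivity : (0 : ℤ) ≤ a') (by positivity : (0 : ℤ) ≤ a)).1 h3
          exact this
        have h5 : a' = a := by exact_mod_cast h4
        exact hne h5.symm
  · obtain ⟨x, G, H, hax, hG, hH, hGH, hS, hbr⟩ := side_qr a b' k u v T hP huv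
    obtain ⟨y, G', H', hby, hG', hH', hGH', hS', har⟩ := side_qr b a' k' u' v' T hP' huv'
    refine ⟨T, x, y, G ^ 2, -2 * G * H, H ^ 2, G' ^ 2, -2 * G' * H', H' ^ 2, hMT, hax, hby, ?_,
      hS, hS', ?_, ?_, ?_, ?_⟩
    · subst hax hby
      exact side_sq T x y hT hsq
    · rw [hbr]; ring
    · rw [har]; ring
    · have : 0 < G ^ 2 + G' ^ 2 := by positivity
      intro h; linarith
    · intro h
      have h1 : (G * H' - G' * H) ^ 2 = 0 := by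
        linarith [h, show (-2 * G * H + -2 * G' * H') ^ 2 - 4 * (G ^ 2 + G' ^ 2) *
          (H ^ 2 + H' ^ 2) = -4 * (G * H' - G' * H) ^ 2 by ring]
      have h2 : G * H' - G' * H = 0 := pow_eq_zero_iff (by norm_num) |>.1 h1
      have haz : (a : ℤ) = T * x := by exact_mod_cast hax
      have hbz : (b : ℤ) = T * y := by exact_mod_cast hby
      have h3 : 4 * ((a : ℤ) * a') ^ 2 = 4 * ((b : ℤ) * b') ^ 2 := by
        calc 4 * ((a : ℤ) * a') ^ 2 = (T : ℤ) ^ 2 * (x : ℤ) ^ 2 * (4 * (a' : ℤ) ^ 2) := by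
              rw [haz]; ring
          _ = (T : ℤ) ^ 2 * (G * H) * (G' * (T : ℤ) ^ 2 - H') ^ 2 := by rw [har, hGH]
          _ = (T : ℤ) ^ 2 * (G' * H') * (G * (T : ℤ) ^ 2 - H) ^ 2 +
              (T : ℤ) ^ 2 * (G * H' - G' * H) * (H * H' - G * G' * (T : ℤ) ^ 4) := by ring
          _ = (T : ℤ) ^ 2 * (y : ℤ) ^ 2 * (4 * (b' : ℤ) ^ 2) := by rw [h2, hbr, hGH']; ring
          _ = _ := by rw [hbz]; ring
      have h4 : ((a : ℤ) * a') ^ 2 = ((b : ℤ) * b') ^ 2 := by linarith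
      have h5 : (a : ℤ) * a' = (b : ℤ) * b' :=
        (sq_eq_sq₀ (by positivity) (by positivity)).1 h4
      exact hprod (by exact_mod_cast h5)

end Pool.Agent.Helper89.TT
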